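import Pool.Agent.W622.SC.Stmts

/-! Subtask SC-EMB of helper622 (MP_88597d_gt): the double suspension of `Q` embeds in Euclidean
space as a set of Hausdorff dimension at most `4`. -/

set_option autoImplicit false

open unitInterval Topology ContinuousMap Module

namespace Pool.Agent.W347.SC.Emb

open Pool.Agent.W622.SC

noncomputable section

/-- `exp (2 π i a)`. -/
def ee (a : ℝ) : ℂ := Complex.exp (2 * Real.pi * Complex.I * a)

theorem ee_eq_iff (a b : ℝ) : ee a = ee b ↔ ∃ n : ℤ, a = b + n := by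
  unfold ee
  rw [Complex.exp_eq_exp_iff_exists_int]
  have h2 : (2 * Real.pi * Complex.I : ℂ) ≠ 0 := by
    simp [Real.pi_ne_zero]
  constructor
  · rintro ⟨n, hn⟩
    refine ⟨n, ?_⟩
    have : (2 * Real.pi * Complex.I : ℂ) * (a : ℂ) = (2 * Real.pi * Complex.I : ℂ) * (b + n) := by
      rw [hn]; ring
    have := mul_left_cancel₀ h2 this
    exact_mod_cast this
  · rintro ⟨n, hn⟩
    refine ⟨n, ?_⟩
    rw [hn]
    push_cast
    ring

theorem ee_zero : ee 0 = 1 := by simp [ee]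

theorem ee_eq_one_iff (a : ℝ) : ee a = 1 ↔ ∃ n : ℤ, a = n := by
  rw [← ee_zero, ee_eq_iff]
  simp

theorem contDiff_ee : ContDiff ℝ 1 ee := by
  unfold ee
  have h1 : ContDiff ℝ 1 fun a : ℝ => (2 * Real.pi * Complex.I : ℂ) * (a : ℂ) :=
    contDiff_const.mul Complex.ofRealCLM.contDiff
  exact (Complex.contDiff_exp (𝕜 := ℝ)).comp h1

/-- The embedding of `Q`, as a function on the plane. -/
def E (x : ℝ × ℝ) : ℂ × ℂ × ℂ :=
  ((1 - x.2) • (ee (2 * x.1) - 1), (x.2 * (1 - x.2)) • (ee x.1 - 1),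
    (x.2 * (x.2 * (1 - x.2))) • (ee x.1 - 1))

theorem contDiff_E : ContDiff ℝ 1 E := by
  unfold E
  have h1 : ContDiff ℝ 1 fun x : ℝ × ℝ => ee (2 * x.1) := contDiff_ee.comp (by fun_prop)
  have h2 : ContDiff ℝ 1 fun x : ℝ × ℝ => ee x.1 := contDiff_ee.comp (by fun_prop)
  fun_prop

theorem E_bad (x : I × I) (h : Qbad x) : E (x.1, x.2) = 0 := by
  obtain ⟨w, r⟩ := x
  have e1 : ee (2 * 1) = 1 := (ee_eq_one_iff _).mpr ⟨2, by norm_num⟩
  have e2 : ee 1 = 1 := (ee_eq_one_iff _).mpr ⟨1, by norm_num⟩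
  rcases h with h | h | h | ⟨h, h'⟩
  · simp only at h
    subst h
    simp [E, ee_zero]
  · simp only at h
    subst h
    rw [mul_one] at e1
    simp [E, e2, e1]
  · simp only at h
    subst h
    simp [E]
  · simp only at h h'
    subst h
    simp [E, h', e2]

theorem E_glue (w w' : I) (h : (w' : ℝ) = w + 1 / 2) :
    E ((w : ℝ), ((0 : I) : ℝ)) = E ((w' : ℝ), ((0 : I) : ℝ)) := by
  have h1 : ee (2 * (w : ℝ)) = ee (2 * (w' : ℝ)) :=
    (ee_eq_iff _ _).mpr ⟨-1, by rw [h]; push_cast; ring⟩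
  simp [E, h1]

/-- The embedding of `Q`. -/
def EQ : C(QQ, ℂ × ℂ × ℂ) :=
  QQ.lift ⟨fun x => E (x.1, x.2), contDiff_E.continuous.comp (by fun_prop)⟩ 0 E_bad E_glue

theorem EQ_mk (x : I × I) : EQ (QQ.mk x) = E (x.1, x.2) := rfl

theorem QQ_mk_eq_pt_iff (x : I × I) : QQ.mk x = QQ.pt ↔ Qbad x := by
  unfold QQ.pt
  rw [QQ.mk_eq_iff]
  have h0 : Qbad ((0 : I), (0 : I)) := Or.inl rfl
  unfold Qnf
  rw [if_pos h0]
  split_ifs with h1 h2
  · simp [h1]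
  · simp [h1]
  · simp [h1]

theorem nonbad {x : I × I} (h : ¬ Qbad x) : (0 : ℝ) < x.1 ∧ (x.1 : ℝ) < 1 ∧ (x.2 : ℝ) < 1 := by
  refine ⟨lt_of_le_of_ne x.1.2.1 fun h' => h (Or.inl (Subtype.ext h'.symm)),
    lt_of_le_of_ne x.1.2.2 fun h' => h (Or.inr (Or.inl (Subtype.ext h'))),
    lt_of_le_of_ne x.2.2.2 fun h' => h (Or.inr (Or.inr (Or.inl (Subtype.ext h'))))⟩

theorem ee_ne_one {a : ℝ} (h0 : 0 < a) (h1 : a < 1) : ee a ≠ 1 := by
  intro h
  obtain ⟨n, hn⟩ := (ee_eq_one_iff a).mp h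
  rw [hn] at h0 h1
  have h0' : 0 < n := by exact_mod_cast h0
  have h1' : n < 1 := by exact_mod_cast h1
  omega

theorem E_ne_zero {x : I × I} (h : ¬ Qbad x) : E (x.1, x.2) ≠ 0 := by
  obtain ⟨h0, h1, h2⟩ := nonbad h
  intro hE
  have hE1 : (1 - (x.2 : ℝ)) • (ee (2 * x.1) - 1) = 0 := congrArg Prod.fst hE
  have hE2 : ((x.2 : ℝ) * (1 - x.2)) • (ee x.1 - 1) = 0 :=
    congrArg (fun y => y.2.1) hE
  have hne : ee (x.1 : ℝ) - 1 ≠ 0 := sub_ne_zero.mpr (ee_ne_one h0 h1)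
  have hr : (1 - (x.2 : ℝ)) ≠ 0 := by linarith
  have hr0 : (x.2 : ℝ) = 0 := by
    rcases smul_eq_zero.mp hE2 with h3 | h3
    · rcases mul_eq_zero.mp h3 with h4 | h4
      · exact h4
      · exact absurd h4 hr
    · exact absurd h3 hne
  have h4 : ee (2 * (x.1 : ℝ)) = 1 := by
    rcases smul_eq_zero.mp hE1 with h3 | h3
    · exact absurd h3 hr
    · exact sub_eq_zero.mp h3
  obtain ⟨n, hn⟩ := (ee_eq_one_iff _).mp h4
  have hn0 : (0 : ℝ) < n := by rw [← hn]; linarith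
  have hn1 : (n : ℝ) < 2 := by rw [← hn]; linarith
  have hn0' : 0 < n := by exact_mod_cast hn0
  have hn1' : n < 2 := by exact_mod_cast hn1
  obtain rfl : n = 1 := by omega
  apply h
  refine Or.inr (Or.inr (Or.inr ⟨Subtype.ext hr0, ?_⟩))
  push_cast at hn
  linarith

theorem EQ_eq_zero_iff (q : QQ) : EQ q = 0 ↔ q = QQ.pt := by
  obtain ⟨x, rfl⟩ := QQ.mk_surj q
  rw [QQ_mk_eq_pt_iff, EQ_mk]
  constructor
  · intro h
    by_contra hb
    exact E_ne_zero hb h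
  · exact E_bad x

theorem EQ_inj : Function.Injective EQ := by
  intro q q' h
  by_cases hq : q = QQ.pt
  · rw [hq] at h ⊢
    have h0 : EQ QQ.pt = 0 := (EQ_eq_zero_iff _).mpr rfl
    rw [h0] at h
    exact ((EQ_eq_zero_iff _).mp h.symm).symm
  have hq' : q' ≠ QQ.pt := by
    intro hq'
    apply hq
    rw [← EQ_eq_zero_iff, h, EQ_eq_zero_iff, hq']
  obtain ⟨x, rfl⟩ := QQ.mk_surj q
  obtain ⟨y, rfl⟩ := QQ.mk_surj q'
  rw [Ne, QQ_mk_eq_pt_iff] at hq'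
  rw [QQ_mk_eq_pt_iff] at hq
  obtain ⟨hx0, hx1, hx2⟩ := nonbad hq
  obtain ⟨hy0, hy1, hy2⟩ := nonbad hq'
  rw [EQ_mk, EQ_mk] at h
  have hE1 : (1 - (x.2 : ℝ)) • (ee (2 * x.1) - 1) = (1 - (y.2 : ℝ)) • (ee (2 * y.1) - 1) :=
    congrArg Prod.fst h
  have hE2 : ((x.2 : ℝ) * (1 - x.2)) • (ee x.1 - 1) = ((y.2 : ℝ) * (1 - y.2)) • (ee y.1 - 1) :=
    congrArg (fun y => y.2.1) h
  have hE3 : ((x.2 : ℝ) * (x.2 * (1 - x.2))) • (ee x.1 - 1) =
      ((y.2 : ℝ) * (y.2 * (1 - y.2))) • (ee y.1 - 1) :=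
    congrArg (fun y => y.2.2) h
  have hnx : ee (x.1 : ℝ) - 1 ≠ 0 := sub_ne_zero.mpr (ee_ne_one hx0 hx1)
  have hny : ee (y.1 : ℝ) - 1 ≠ 0 := sub_ne_zero.mpr (ee_ne_one hy0 hy1)
  have hxr : (1 - (x.2 : ℝ)) ≠ 0 := by linarith
  have hyr : (1 - (y.2 : ℝ)) ≠ 0 := by linarith
  by_cases hx3 : (x.2 : ℝ) = 0
  · have hy3 : (y.2 : ℝ) = 0 := by
      rw [hx3, zero_mul, zero_smul] at hE2
      rcases smul_eq_zero.mp hE2.symm with h3 | h3
      · rcases mul_eq_zero.mp h3 with h4 | h4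
        · exact h4
        · exact absurd h4 hyr
      · exact absurd h3 hny
    rw [hx3, hy3] at hE1
    simp only [sub_zero, one_smul, sub_left_inj] at hE1
    obtain ⟨n, hn⟩ := (ee_eq_iff _ _).mp hE1
    rw [QQ.mk_eq_iff]
    unfold Qnf
    rw [if_neg hq, if_neg hq', if_pos (Subtype.ext hx3), if_pos (Subtype.ext hy3)]
    congr 2
    rw [Int.fract_eq_fract]
    exact ⟨n, by rw [hn]; ring⟩
  · have hA : ((x.2 : ℝ) * (1 - x.2)) • (ee x.1 - 1) ≠ 0 :=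
      smul_ne_zero (mul_ne_zero hx3 hxr) hnx
    have hr : (x.2 : ℝ) = y.2 := by
      have h5 : ((x.2 : ℝ)) • (((x.2 : ℝ) * (1 - x.2)) • (ee x.1 - 1)) =
          (y.2 : ℝ) • (((x.2 : ℝ) * (1 - x.2)) • (ee x.1 - 1)) := by
        conv_rhs => rw [hE2]
        rw [smul_smul, smul_smul, hE3]
      exact smul_left_injective ℝ hA h5
    rw [← hr] at hE2
    have h6 : ee (x.1 : ℝ) - 1 = ee y.1 - 1 :=
      smul_right_injective ℂ (mul_ne_zero hx3 hxr) hE2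
    have h7 : ee (x.1 : ℝ) = ee y.1 := by
      simpa using h6
    obtain ⟨n, hn⟩ := (ee_eq_iff _ _).mp h7
    have hn0 : (-1 : ℝ) < n := by linarith
    have hn1 : (n : ℝ) < 1 := by linarith
    have hn0' : -1 < n := by exact_mod_cast hn0
    have hn1' : n < 1 := by exact_mod_cast hn1
    obtain rfl : n = 0 := by omega
    have : x = y := Prod.ext (Subtype.ext (by simpa using hn)) (Subtype.ext hr)
    rw [this]

/-- The target of the first embedding. -/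
abbrev V : Type := (ℂ × ℂ × ℂ) × (ℂ × ℂ × ℂ) × (ℂ × ℂ × ℂ)

/-- The weight function of the square. -/
def be (a b : ℝ) : ℝ := a * (1 - a) * (b * (1 - b))

/-- The map on `ℝ⁴`. -/
def Phi (x : (ℝ × ℝ) × (ℝ × ℝ)) : V :=
  (be x.1.1 x.1.2 • E x.2, (be x.1.1 x.1.2 * x.1.1) • E x.2, (be x.1.1 x.1.2 * x.1.2) • E x.2)

theorem contDiff_Phi : ContDiff ℝ 1 Phi := by
  unfold Phi be
  have h1 : ContDiff ℝ 1 fun x : (ℝ × ℝ) × (ℝ × ℝ) => E x.2 := contDiff_E.comp contDiff_snd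
  fun_prop

theorem be_eq_zero_iff (t : Fin 2 → I) : be (t 0) (t 1) = 0 ↔ t ∈ Cube.boundary (Fin 2) := by
  unfold be Cube.boundary
  simp only [mul_eq_zero, Set.mem_setOf_eq, Fin.exists_fin_two]
  have h0 : ∀ s : I, (s : ℝ) = 0 ↔ s = 0 := fun s => ⟨fun h => Subtype.ext h, fun h => by simp [h]⟩
  have h1 : ∀ s : I, 1 - (s : ℝ) = 0 ↔ s = 1 := fun s =>
    ⟨fun h => Subtype.ext (by rw [Set.Icc.coe_one]; linarith), fun h => by simp [h]⟩
  rw [h0, h0, h1, h1]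

/-- The map of the double suspension. -/
def phi0 : C(S2 QQ.pt, V) :=
  S2.lift (⟨fun x => (be (x.1 0) (x.1 1) • EQ x.2, (be (x.1 0) (x.1 1) * x.1 0) • EQ x.2,
    (be (x.1 0) (x.1 1) * x.1 1) • EQ x.2), by
      unfold be
      fun_prop⟩ : C((Fin 2 → I) × QQ, V)) 0 (by
    rintro ⟨t, q⟩ (h | h)
    · have h' : be (t 0) (t 1) = 0 := (be_eq_zero_iff t).mpr h
      simp [h']
    · have h' : EQ q = 0 := (EQ_eq_zero_iff q).mpr h
      simp [h'])

theorem phi0_mk (t : Fin 2 → I) (q : QQ) : phi0 (S2.mk QQ.pt (t, q)) =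
    (be (t 0) (t 1) • EQ q, (be (t 0) (t 1) * t 0) • EQ q, (be (t 0) (t 1) * t 1) • EQ q) := rfl

theorem phi0_inj : Function.Injective phi0 := by
  intro a b h
  obtain ⟨⟨t, q⟩, rfl⟩ := S2.mk_surj QQ.pt a
  obtain ⟨⟨s, p⟩, rfl⟩ := S2.mk_surj QQ.pt b
  rw [phi0_mk, phi0_mk] at h
  have h1 : be (t 0) (t 1) • EQ q = be (s 0) (s 1) • EQ p := congrArg Prod.fst h
  have h2 : (be (t 0) (t 1) * t 0) • EQ q = (be (s 0) (s 1) * s 0) • EQ p :=
    congrArg (fun y => y.2.1) h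
  have h3 : (be (t 0) (t 1) * t 1) • EQ q = (be (s 0) (s 1) * s 1) • EQ p :=
    congrArg (fun y => y.2.2) h
  have hbad : ∀ (t : Fin 2 → I) (q : QQ), S2bad QQ.pt (t, q) ↔ be (t 0) (t 1) • EQ q = 0 := by
    intro t q
    rw [smul_eq_zero, be_eq_zero_iff, EQ_eq_zero_iff]
    rfl
  rw [S2.mk_eq_iff']
  by_cases hb : S2bad QQ.pt (t, q)
  · left
    refine ⟨hb, ?_⟩
    rw [hbad] at hb ⊢
    rw [← h1, hb]
  · right
    refine ⟨hb, ?_⟩
    rw [hbad] at hb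
    have e0 : ((t 0 : ℝ)) • (be (t 0) (t 1) • EQ q) = ((s 0 : ℝ)) • (be (t 0) (t 1) • EQ q) := by
      conv_rhs => rw [h1]
      rw [smul_smul, smul_smul, mul_comm, h2, mul_comm]
    have e1 : ((t 1 : ℝ)) • (be (t 0) (t 1) • EQ q) = ((s 1 : ℝ)) • (be (t 0) (t 1) • EQ q) := by
      conv_rhs => rw [h1]
      rw [smul_smul, smul_smul, mul_comm, h3, mul_comm]
    have f0 : (t 0 : ℝ) = s 0 := smul_left_injective ℝ hb e0
    have f1 : (t 1 : ℝ) = s 1 := smul_left_injective ℝ hb e1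
    have hts : t = s := by
      funext i
      fin_cases i
      · exact Subtype.ext f0
      · exact Subtype.ext f1
    subst hts
    have hbe : be (t 0) (t 1) ≠ 0 := fun h0 => hb (by rw [h0, zero_smul])
    have hq : EQ q = EQ p := smul_right_injective _ hbe h1
    rw [EQ_inj hq]

theorem range_phi0 : Set.range phi0 ⊆ Set.range Phi := by
  rintro _ ⟨a, rfl⟩
  obtain ⟨⟨t, q⟩, rfl⟩ := S2.mk_surj QQ.pt a
  obtain ⟨x, rfl⟩ := QQ.mk_surj q
  exact ⟨(((t 0 : ℝ), (t 1 : ℝ)), ((x.1 : ℝ), (x.2 : ℝ))), rfl⟩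

theorem dimH_range_phi0 : dimH (Set.range phi0) ≤ 4 := by
  refine (dimH_mono range_phi0).trans ?_
  refine contDiff_Phi.dimH_range_le.trans ?_
  have : Module.finrank ℝ ((ℝ × ℝ) × (ℝ × ℝ)) = 4 := by simp
  rw [this]
  norm_num

instance : CompactSpace (S2 QQ.pt) :=
  inferInstanceAs (CompactSpace (Quotient (Setoid.ker (S2nf QQ.pt))))

/-- The linear isomorphism with a Euclidean space. -/
def lin : V ≃L[ℝ] EuclideanSpace ℝ (Fin (Module.finrank ℝ V)) :=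
  toEuclidean

theorem main : S_emb := by
  refine ⟨Module.finrank ℝ V, fun x => lin (phi0 x), ?_, ?_⟩
  · have h : Topology.IsClosedEmbedding fun x => lin (phi0 x) :=
      (lin.continuous.comp phi0.continuous).isClosedEmbedding
        (lin.injective.comp phi0_inj)
    exact h.isEmbedding
  · have : Set.range (fun x => lin (phi0 x)) = lin '' Set.range phi0 := by
      rw [← Set.range_comp]
      rfl
    rw [this, ContinuousLinearEquiv.dimH_image]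
    exact dimH_range_phi0

end

end Pool.Agent.W347.SC.Emb
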